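import Pool.Agent.Helper37.KD.DefsC

/-! KD Part I, piece N2 (helper90) -/

namespace KD.I.N2

open Finset KD

/-- the twofold convolution: second differences are `O(R⁻²)` relative -/
theorem theta2_smooth : ∃ C : ℝ, 0 < C ∧ ∀ (N : ℕ) [NeZero N] (R : ℝ) (θ : ZMod N → ℝ), 1 ≤ R →
    (∀ i, 0 < θ i) → (∑ i, θ i = 1) →
    (∀ i, θ i - R ^ 2 * (θ (i + 1) + θ (i - 1) - 2 * θ i) = if i = 0 then 1 else 0) →
    (∀ i j, θ (i + j) ≤ Real.exp ((j.valMinAbs.natAbs : ℝ) / R) * θ i) →
    (∑ i, θ i * Real.exp ((i.valMinAbs.natAbs : ℝ) / (2 * R)) ≤ 4) →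
    ∀ i, |cv θ θ (i + 1) + cv θ θ (i - 1) - 2 * cv θ θ i| ≤ C / R ^ 2 * cv θ θ i := by
  refine ⟨16, by norm_num, ?_⟩
  intro N _ R θ hR hpos hmass heq hlip hmom i
  have hR0 : 0 < R := by linarith
  have hR2 : 0 < R ^ 2 := by positivity
  -- Laplacian identity
  have hlap : cv θ θ (i + 1) + cv θ θ (i - 1) - 2 * cv θ θ i = (cv θ θ i - θ i) / R ^ 2 := by
    rw [eq_div_iff hR2.ne']
    have h1 : (cv θ θ (i + 1) + cv θ θ (i - 1) - 2 * cv θ θ i) * R ^ 2
        = ∑ w, θ w * (R ^ 2 * (θ (i - w + 1) + θ (i - w - 1) - 2 * θ (i - w))) := by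
      simp only [cv]
      rw [mul_sum, ← sum_add_distrib, ← sum_sub_distrib, sum_mul]
      refine sum_congr rfl fun w _ => ?_
      have e1 : i + 1 - w = i - w + 1 := by ring
      have e2 : i - 1 - w = i - w - 1 := by ring
      rw [e1, e2]; ring
    rw [h1]
    have h2 : ∀ w, θ w * (R ^ 2 * (θ (i - w + 1) + θ (i - w - 1) - 2 * θ (i - w)))
        = θ w * θ (i - w) - (if i - w = 0 then θ w else 0) := by
      intro w
      have := heq (i - w)
      have h3 : R ^ 2 * (θ (i - w + 1) + θ (i - w - 1) - 2 * θ (i - w))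
        = θ (i - w) - (if i - w = 0 then 1 else 0) := by linarith
      rw [h3]
      split_ifs <;> ring
    rw [sum_congr rfl fun w _ => h2 w, sum_sub_distrib]
    congr 1
    have h4 : ∀ w, (if i - w = 0 then θ w else 0) = if i = w then θ w else 0 := by
      intro w
      simp [sub_eq_zero]
    rw [sum_congr rfl fun w _ => h4 w, sum_ite_eq]
    simp
  -- lower bound for the convolution
  have hlow : θ i ≤ 16 * cv θ θ i := by
    have h1 : ∀ w, θ w * (Real.exp (-((w.valMinAbs.natAbs : ℝ) / R)) * θ i) ≤ θ w * θ (i - w) := by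
      intro w
      refine mul_le_mul_of_nonneg_left ?_ (hpos w).le
      have := hlip (i - w) w
      rw [sub_add_cancel] at this
      rw [Real.exp_neg, inv_mul_le_iff₀ (Real.exp_pos _)]
      exact this
    have h2 : ∀ w : ZMod N, (3 : ℝ) / 16 - Real.exp ((w.valMinAbs.natAbs : ℝ) / (2 * R)) / 32
        ≤ Real.exp (-((w.valMinAbs.natAbs : ℝ) / R)) := by
      intro w
      set x := Real.exp ((w.valMinAbs.natAbs : ℝ) / (2 * R)) with hx
      have hx0 : 0 < x := Real.exp_pos _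
      have hxx : Real.exp (-((w.valMinAbs.natAbs : ℝ) / R)) = (x ^ 2)⁻¹ := by
        rw [hx, ← Real.exp_nat_mul, ← Real.exp_neg]
        congr 1
        field_simp
        push_cast
        ring
      rw [hxx, ← sub_nonneg]
      have e : (x ^ 2)⁻¹ - (3 / 16 - x / 32) = (x - 4) ^ 2 * (x + 2) / (32 * x ^ 2) := by
        field_simp
        ring
      rw [e]
      positivity
    have h3 : (1 : ℝ) / 16 ≤ ∑ w, θ w * Real.exp (-((w.valMinAbs.natAbs : ℝ) / R)) := by
      have h4 : ∑ w, θ w * ((3 : ℝ) / 16 - Real.exp ((w.valMinAbs.natAbs : ℝ) / (2 * R)) / 32)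
          = 3 / 16 * ∑ w, θ w - (∑ w, θ w * Real.exp ((w.valMinAbs.natAbs : ℝ) / (2 * R))) / 32 := by
        rw [mul_sum, sum_div, ← sum_sub_distrib]
        exact sum_congr rfl fun w _ => by ring
      have h5 : ∑ w, θ w * ((3 : ℝ) / 16 - Real.exp ((w.valMinAbs.natAbs : ℝ) / (2 * R)) / 32)
          ≤ ∑ w, θ w * Real.exp (-((w.valMinAbs.natAbs : ℝ) / R)) :=
        sum_le_sum fun w _ => mul_le_mul_of_nonneg_left (h2 w) (hpos w).le
      rw [h4, hmass] at h5
      linarith
    have h6 : (∑ w, θ w * Real.exp (-((w.valMinAbs.natAbs : ℝ) / R))) * θ i ≤ cv θ θ i := by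
      rw [sum_mul]
      unfold cv
      refine sum_le_sum fun w _ => ?_
      rw [mul_assoc]
      exact h1 w
    have := hpos i
    nlinarith
  have hcv : 0 < cv θ θ i := by
    have := hpos i
    linarith
  rw [hlap, abs_div, abs_of_pos hR2, div_mul_eq_mul_div]
  refine div_le_div_of_nonneg_right ?_ hR2.le
  rw [abs_le]
  have := hpos i
  constructor <;> nlinarith

end KD.I.N2
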