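import Pool.Agent.Helper37.KD.DefsC

/-! KD Part I, piece N4 (helper90) -/

namespace KD.I.N4

open Finset KD

namespace Aux

theorem exp_sub_le {t : ℝ} (ht : 0 ≤ t) : Real.exp t - 1 - t ≤ t ^ 2 * Real.exp t := by
  -- e^t - 1 ≤ t e^t
  have h1 : Real.exp t - 1 ≤ t * Real.exp t := by
    have := Real.add_one_le_exp (-t)
    have h2 : Real.exp (-t) * Real.exp t = 1 := by rw [← Real.exp_add]; simp
    nlinarith [Real.exp_pos t]
  have h3 : Real.exp t - 1 - t ≤ t * (Real.exp t - 1) := by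
    nlinarith
  nlinarith

/-- products close to one, first order -/
theorem prod_first {ι : Type*} (s : Finset ι) (α t : ι → ℝ) (ht : ∀ i ∈ s, 0 ≤ t i)
    (h : ∀ i ∈ s, |1 - α i| ≤ Real.exp (t i) - 1) :
    |1 - ∏ i ∈ s, α i| ≤ Real.exp (∑ i ∈ s, t i) - 1 := by
  classical
  induction s using Finset.induction_on with
  | empty => simp
  | insert a s ha ih =>
    rw [prod_insert ha, sum_insert ha, Real.exp_add]
    have h1 := h a (mem_insert_self _ _)
    have h2 := ih (fun i hi => ht i (mem_insert_of_mem hi)) (fun i hi => h i (mem_insert_of_mem hi))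
    have h3 : 1 - α a * ∏ i ∈ s, α i = (1 - ∏ i ∈ s, α i) + (1 - α a) - (1 - α a) * (1 - ∏ i ∈ s, α i) := by
      ring
    rw [h3]
    have h4 := abs_sub ((1 - ∏ i ∈ s, α i) + (1 - α a)) ((1 - α a) * (1 - ∏ i ∈ s, α i))
    have h5 := abs_add_le (1 - ∏ i ∈ s, α i) (1 - α a)
    have h6 : |(1 - α a) * (1 - ∏ i ∈ s, α i)| ≤ (Real.exp (t a) - 1) * (Real.exp (∑ i ∈ s, t i) - 1) := by
      rw [abs_mul]
      exact mul_le_mul h1 h2 (abs_nonneg _) ((abs_nonneg _).trans h1)
    nlinarith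

/-- second order -/
theorem prod_second {ι : Type*} (s : Finset ι) (α t : ι → ℝ) (ht : ∀ i ∈ s, 0 ≤ t i)
    (h : ∀ i ∈ s, |1 - α i| ≤ Real.exp (t i) - 1) :
    |1 - ∏ i ∈ s, α i - ∑ i ∈ s, (1 - α i)| ≤ Real.exp (∑ i ∈ s, t i) - 1 - ∑ i ∈ s, t i := by
  classical
  induction s using Finset.induction_on with
  | empty => simp
  | insert a s ha ih =>
    rw [prod_insert ha, sum_insert ha, sum_insert ha, Real.exp_add]
    have h1 := h a (mem_insert_self _ _)
    have h0 := ht a (mem_insert_self _ _)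
    have h2 := ih (fun i hi => ht i (mem_insert_of_mem hi)) (fun i hi => h i (mem_insert_of_mem hi))
    have h2' := prod_first s α t (fun i hi => ht i (mem_insert_of_mem hi))
      (fun i hi => h i (mem_insert_of_mem hi))
    have h3 : 1 - α a * ∏ i ∈ s, α i - ((1 - α a) + ∑ i ∈ s, (1 - α i))
        = (1 - ∏ i ∈ s, α i - ∑ i ∈ s, (1 - α i)) - (1 - α a) * (1 - ∏ i ∈ s, α i) := by
      ring
    rw [h3]
    have h4 := abs_sub (1 - ∏ i ∈ s, α i - ∑ i ∈ s, (1 - α i)) ((1 - α a) * (1 - ∏ i ∈ s, α i))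
    have h6 : |(1 - α a) * (1 - ∏ i ∈ s, α i)| ≤ (Real.exp (t a) - 1) * (Real.exp (∑ i ∈ s, t i) - 1) := by
      rw [abs_mul]
      exact mul_le_mul h1 h2' (abs_nonneg _) ((abs_nonneg _).trans h1)
    have h7 := Real.add_one_le_exp (t a)
    nlinarith

end Aux

/-- d-dimensional Taylor estimate for a product kernel -/
theorem taylorV (d : ℕ) (C' : ℝ) (hC' : 0 < C') : ∃ C'' : ℝ, 0 < C'' ∧ ∀ (N : ℕ) [NeZero N] (R : ℝ)
    (f : ZMod N → ℝ), Odd N → 1 ≤ R → (∀ i, 0 < f i) →
    (∀ i j, f (i + j) ≤ Real.exp ((j.valMinAbs.natAbs : ℝ) / R) * f i) →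
    (∀ i y : ZMod N, |f i - f (i - y) - (y.valMinAbs : ℝ) / 2 * (f (i + 1) - f (i - 1))| ≤
      C' * ((y.valMinAbs.natAbs : ℝ) / R) ^ 2 * Real.exp (2 * (y.valMinAbs.natAbs : ℝ) / R) * f i) →
    ∀ x y : V d N, |(∏ i, f (x i)) - (∏ i, f (x i - y i))
        - (1 / 2) * ∑ i, ((y i).valMinAbs : ℝ) *
          ((∏ l, f (x l + (ee i : V d N) l)) - ∏ l, f (x l - (ee i : V d N) l))| ≤
      C'' * (n1 y / R) ^ 2 * Real.exp (4 * n1 y / R) * ∏ i, f (x i) := by
  refine ⟨1 + C', by positivity, ?_⟩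
  intro N _ R f hodd hR hpos hlip htay x y
  have hR0 : 0 < R := by linarith
  set F : ℝ := ∏ i, f (x i) with hF
  have hFpos : 0 < F := prod_pos fun i _ => hpos _
  set t : Fin d → ℝ := fun i => ((y i).valMinAbs.natAbs : ℝ) / R with ht
  have ht0 : ∀ i, 0 ≤ t i := fun i => by positivity
  have hT : ∑ i, t i = n1 y / R := by
    simp only [ht, n1, sum_div]
  set α : Fin d → ℝ := fun i => f (x i - y i) / f (x i) with hα
  set δ : Fin d → ℝ := fun i => ((y i).valMinAbs : ℝ) / 2 * (f (x i + 1) - f (x i - 1)) / f (x i) with hδ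
  -- the derivative term
  have hprodee : ∀ (i : Fin d) (g : ZMod N → ZMod N → ZMod N), (∀ a, g a 0 = a) →
      ∏ l, f (g (x l) ((ee i : V d N) l)) = f (g (x i) 1) / f (x i) * F := by
    intro i g hg
    rw [← mul_prod_erase univ _ (mem_univ i)]
    rw [hF, ← mul_prod_erase univ (fun l => f (x l)) (mem_univ i)]
    have h1 : ∏ l ∈ univ.erase i, f (g (x l) ((ee i : V d N) l)) = ∏ l ∈ univ.erase i, f (x l) := by
      refine prod_congr rfl fun l hl => ?_
      have hne : l ≠ i := (mem_erase.1 hl).1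
      have : (ee i : V d N) l = 0 := by simp [ee, hne]
      rw [this, hg]
    have h2 : (ee i : V d N) i = 1 := by simp [ee]
    rw [h1, h2]
    have := (hpos (x i)).ne'
    field_simp
  have hplus : ∀ i : Fin d, ∏ l, f (x l + (ee i : V d N) l) = f (x i + 1) / f (x i) * F :=
    fun i => hprodee i (fun a b => a + b) (fun a => add_zero a)
  have hminus : ∀ i : Fin d, ∏ l, f (x l - (ee i : V d N) l) = f (x i - 1) / f (x i) * F :=
    fun i => hprodee i (fun a b => a - b) (fun a => sub_zero a)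
  have hlin : (1 / 2) * ∑ i, ((y i).valMinAbs : ℝ) *
          ((∏ l, f (x l + (ee i : V d N) l)) - ∏ l, f (x l - (ee i : V d N) l)) = (∑ i, δ i) * F := by
    rw [mul_sum, sum_mul]
    refine sum_congr rfl fun i _ => ?_
    rw [hplus, hminus]
    simp only [hδ]
    have := (hpos (x i)).ne'
    field_simp
  have hprod : ∏ i, f (x i - y i) = (∏ i, α i) * F := by
    rw [hF, ← prod_mul_distrib]
    refine prod_congr rfl fun i _ => ?_
    simp only [hα]
    have := (hpos (x i)).ne'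
    field_simp
  rw [hlin, hprod]
  have hfac : F - (∏ i, α i) * F - (∑ i, δ i) * F = (1 - ∏ i, α i - ∑ i, δ i) * F := by ring
  rw [hfac, abs_mul, abs_of_pos hFpos]
  refine mul_le_mul_of_nonneg_right ?_ hFpos.le
  -- bounds on α
  have hα1 : ∀ i, |1 - α i| ≤ Real.exp (t i) - 1 := by
    intro i
    have hfi := hpos (x i)
    have h1 : f (x i) ≤ Real.exp (t i) * f (x i - y i) := by
      have := hlip (x i - y i) (y i)
      rwa [sub_add_cancel] at this
    have h2 : f (x i - y i) ≤ Real.exp (t i) * f (x i) := by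
      have := hlip (x i) (-(y i))
      rw [← sub_eq_add_neg] at this
      have e : ((-(y i)).valMinAbs.natAbs : ℝ) = ((y i).valMinAbs.natAbs : ℝ) := by
        have := ZMod.natAbs_valMinAbs_neg (y i)
        exact_mod_cast this
      rw [e] at this
      exact this
    have h3 : α i ≤ Real.exp (t i) := by
      rw [hα]
      exact (div_le_iff₀ hfi).2 h2
    have h4 : 1 ≤ Real.exp (t i) * α i := by
      rw [hα]
      have : Real.exp (t i) * (f (x i - y i) / f (x i)) = Real.exp (t i) * f (x i - y i) / f (x i) := by ring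
      rw [this, le_div_iff₀ hfi, one_mul]
      exact h1
    have h5 : 1 ≤ Real.exp (t i) := Real.one_le_exp (ht0 i)
    rw [abs_le]
    constructor
    · linarith
    · -- 1 - α ≤ e^t - 1,  α ≥ e^{-t} ≥ 2 - e^t
      nlinarith [sq_nonneg (Real.exp (t i) - 1)]
  have hε : ∀ i, |(1 - α i) - δ i| ≤ C' * t i ^ 2 * Real.exp (2 * t i) := by
    intro i
    have hfi := hpos (x i)
    have h1 := htay (x i) (y i)
    have h2 : (1 - α i) - δ i = (f (x i) - f (x i - y i) - ((y i).valMinAbs : ℝ) / 2 * (f (x i + 1) - f (x i - 1))) / f (x i) := by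
      simp only [hα, hδ]
      field_simp
    rw [h2, abs_div, abs_of_pos hfi, div_le_iff₀ hfi]
    have e : (2 * ((y i).valMinAbs.natAbs : ℝ) / R) = 2 * t i := by
      simp only [ht]; ring
    rw [e] at h1
    exact h1
  have hsplit : 1 - ∏ i, α i - ∑ i, δ i = (1 - ∏ i, α i - ∑ i, (1 - α i)) + ∑ i, ((1 - α i) - δ i) := by
    have e : ∑ i, ((1 - α i) - δ i) = ∑ i, (1 - α i) - ∑ i, δ i := sum_sub_distrib _ _
    rw [e]; ring
  have hA := Aux.prod_second univ α t (fun i _ => ht0 i) (fun i _ => hα1 i)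
  have hTnn : 0 ≤ ∑ i, t i := sum_nonneg fun i _ => ht0 i
  have hB : |∑ i, ((1 - α i) - δ i)| ≤ C' * (∑ i, t i) ^ 2 * Real.exp (2 * ∑ i, t i) := by
    refine (abs_sum_le_sum_abs _ _).trans ?_
    calc ∑ i, |(1 - α i) - δ i| ≤ ∑ i, C' * t i ^ 2 * Real.exp (2 * ∑ i, t i) := by
          refine sum_le_sum fun i _ => (hε i).trans ?_
          have : t i ≤ ∑ i, t i := single_le_sum (fun j _ => ht0 j) (mem_univ i)
          exact mul_le_mul_of_nonneg_left (Real.exp_le_exp.2 (by linarith)) (by positivity)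
      _ = C' * (∑ i, t i ^ 2) * Real.exp (2 * ∑ i, t i) := by
          rw [← sum_mul, ← mul_sum]
      _ ≤ _ := by
          have : ∑ i, t i ^ 2 ≤ (∑ i, t i) ^ 2 := by
            rw [pow_two, sum_mul]
            refine sum_le_sum fun i _ => ?_
            rw [pow_two]
            exact mul_le_mul_of_nonneg_left (single_le_sum (fun j _ => ht0 j) (mem_univ i)) (ht0 i)
          gcongr
  have hC := Aux.exp_sub_le hTnn
  rw [hsplit]
  refine (abs_add_le _ _).trans ?_
  have e4 : 4 * n1 y / R = 4 * ∑ i, t i := by rw [hT]; ring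
  rw [e4, ← hT]
  set T := ∑ i, t i with hTdef
  have m1 : Real.exp T ≤ Real.exp (4 * T) := Real.exp_le_exp.2 (by linarith)
  have m2 : Real.exp (2 * T) ≤ Real.exp (4 * T) := Real.exp_le_exp.2 (by linarith)
  have m3 : T ^ 2 * Real.exp T ≤ T ^ 2 * Real.exp (4 * T) := mul_le_mul_of_nonneg_left m1 (sq_nonneg _)
  have m4 : C' * T ^ 2 * Real.exp (2 * T) ≤ C' * T ^ 2 * Real.exp (4 * T) :=
    mul_le_mul_of_nonneg_left m2 (by positivity)
  calc _ ≤ (Real.exp T - 1 - T) + C' * T ^ 2 * Real.exp (2 * T) := add_le_add hA hB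
    _ ≤ T ^ 2 * Real.exp (4 * T) + C' * T ^ 2 * Real.exp (4 * T) := by linarith
    _ = _ := by ring

end KD.I.N4
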