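import Pool.Agent.Helper37.KD.St.N1
import Pool.Agent.Helper37.KD.St.N3
import Pool.Agent.Helper90.KD1.N2
import Pool.Agent.Helper90.KD1.N4

/-! KD Part I, piece N5 (helper90) -/

namespace KD.I.N5

open Finset KD

namespace Aux

/-- one-dimensional smooth kernel -/
theorem f_exists : ∃ C' : ℝ, 0 < C' ∧ ∀ (N : ℕ) [NeZero N] (R : ℝ), Odd N → 3 ≤ N → 1 ≤ R →
    ∃ f : ZMod N → ℝ, (∀ i, 0 < f i) ∧ (∑ i, f i = 1) ∧ (∀ i, f (-i) = f i) ∧
      (∀ i j, f (i + j) ≤ Real.exp ((j.valMinAbs.natAbs : ℝ) / R) * f i) ∧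
      (∑ i, f i * Real.exp ((i.valMinAbs.natAbs : ℝ) / (2 * R)) ≤ 16) ∧
      (∀ i y : ZMod N, |f i - f (i - y) - (y.valMinAbs : ℝ) / 2 * (f (i + 1) - f (i - 1))| ≤
      C' * ((y.valMinAbs.natAbs : ℝ) / R) ^ 2 * Real.exp (2 * (y.valMinAbs.natAbs : ℝ) / R) * f i) := by
  obtain ⟨C, hC, h2⟩ := KD.I.N2.theta2_smooth
  obtain ⟨C', hC', h3⟩ := taylor1 C hC
  refine ⟨C', hC', ?_⟩
  intro N _ R hodd hN hR
  obtain ⟨θ, hpos, hmass, heven, heq, hlip, hmom⟩ := theta_exists N hodd hN R hR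
  have hR0 : 0 < R := by linarith
  have hfpos : ∀ i, 0 < cv θ θ i := fun i =>
    cv_pos hpos (fun z => (hpos z).le) (by rw [hmass]; exact one_pos) i
  have hflip : ∀ i j, cv θ θ (i + j) ≤ Real.exp ((j.valMinAbs.natAbs : ℝ) / R) * cv θ θ i := by
    intro i j
    unfold cv
    rw [mul_sum]
    refine sum_le_sum fun w _ => ?_
    have := hlip (i - w) j
    have e : i + j - w = i - w + j := by ring
    rw [e]
    calc θ w * θ (i - w + j) ≤ θ w * (Real.exp ((j.valMinAbs.natAbs : ℝ) / R) * θ (i - w)) :=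
          mul_le_mul_of_nonneg_left this (hpos w).le
      _ = _ := by ring
  refine ⟨cv θ θ, hfpos, ?_, ?_, hflip, ?_, ?_⟩
  · rw [sum_cv, hmass, one_mul]
  · intro i
    unfold cv
    have := sum_neg (fun w => θ w * θ (-i - w))
    rw [← this]
    refine sum_congr rfl fun w _ => ?_
    have e : -i - -w = -(i - w) := by ring
    rw [e, heven, heven]
  · -- exponential moment
    have key : ∀ i w : ZMod N, Real.exp ((i.valMinAbs.natAbs : ℝ) / (2 * R)) ≤
        Real.exp ((w.valMinAbs.natAbs : ℝ) / (2 * R)) * Real.exp (((i - w).valMinAbs.natAbs : ℝ) / (2 * R)) := by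
      intro i w
      rw [← Real.exp_add, ← add_div]
      refine Real.exp_le_exp.2 (div_le_div_of_nonneg_right ?_ (by positivity))
      have := ZMod.natAbs_valMinAbs_add_le w (i - w)
      rw [add_sub_cancel] at this
      have h2 : ((w.valMinAbs + (i - w).valMinAbs).natAbs) ≤ w.valMinAbs.natAbs + (i - w).valMinAbs.natAbs :=
        Int.natAbs_add_le _ _
      exact_mod_cast this.trans h2
    calc ∑ i, cv θ θ i * Real.exp ((i.valMinAbs.natAbs : ℝ) / (2 * R))
        ≤ ∑ i, cv (fun w => θ w * Real.exp ((w.valMinAbs.natAbs : ℝ) / (2 * R)))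
            (fun w => θ w * Real.exp ((w.valMinAbs.natAbs : ℝ) / (2 * R))) i := by
          refine sum_le_sum fun i _ => ?_
          unfold cv
          rw [sum_mul]
          refine sum_le_sum fun w _ => ?_
          have h1 := key i w
          have h3 : 0 ≤ θ w * θ (i - w) := mul_nonneg (hpos _).le (hpos _).le
          calc θ w * θ (i - w) * Real.exp ((i.valMinAbs.natAbs : ℝ) / (2 * R))
              ≤ θ w * θ (i - w) * (Real.exp ((w.valMinAbs.natAbs : ℝ) / (2 * R)) *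
                Real.exp (((i - w).valMinAbs.natAbs : ℝ) / (2 * R))) :=
                mul_le_mul_of_nonneg_left h1 h3
            _ = _ := by ring
      _ = (∑ w, θ w * Real.exp ((w.valMinAbs.natAbs : ℝ) / (2 * R))) *
            ∑ w, θ w * Real.exp ((w.valMinAbs.natAbs : ℝ) / (2 * R)) := sum_cv _ _
      _ ≤ 4 * 4 := by
          refine mul_le_mul hmom hmom ?_ (by norm_num)
          exact sum_nonneg fun w _ => mul_nonneg (hpos _).le (Real.exp_pos _).le
      _ = 16 := by norm_num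
  · exact h3 N R (cv θ θ) hodd hR hfpos hflip (h2 N R θ hR hpos hmass heq hlip hmom)

section dim
variable {d N : ℕ} [NeZero N]

/-- product kernel -/
noncomputable def FF (f : ZMod N → ℝ) (x : V d N) : ℝ := ∏ i, f (x i)

theorem sum_FF (f : ZMod N → ℝ) : ∑ x : V d N, FF f x = (∑ i, f i) ^ d := by
  unfold FF
  have := Finset.prod_univ_sum (fun _ : Fin d => (univ : Finset (ZMod N))) (fun _ j => f j)
  rw [Fintype.piFinset_univ] at this
  rw [← this]
  simp

omit [NeZero N] in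
theorem n1_div (x : V d N) (R : ℝ) : n1 x / R = ∑ i, ((x i).valMinAbs.natAbs : ℝ) / R := by
  unfold n1; rw [sum_div]

omit [NeZero N] in
theorem FF_exp (f : ZMod N → ℝ) (R : ℝ) (x : V d N) :
    FF f x * Real.exp (n1 x / R / 2) = FF (fun i => f i * Real.exp ((i.valMinAbs.natAbs : ℝ) / (2 * R))) x := by
  unfold FF
  rw [prod_mul_distrib, ← Real.exp_sum]
  congr 2
  rw [n1_div, sum_div]
  refine sum_congr rfl fun i _ => ?_
  rw [div_div, mul_comm R 2]

omit [NeZero N] in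
theorem FF_lip (f : ZMod N → ℝ) (R : ℝ) (hpos : ∀ i, 0 < f i)
    (hlip : ∀ i j, f (i + j) ≤ Real.exp ((j.valMinAbs.natAbs : ℝ) / R) * f i) (x w : V d N) :
    FF f (x + w) ≤ Real.exp (n1 w / R) * FF f x := by
  unfold FF
  rw [n1_div, Real.exp_sum, ← prod_mul_distrib]
  refine prod_le_prod (fun i _ => (hpos _).le) fun i _ => ?_
  exact hlip _ _

omit [NeZero N] in
theorem n1_neg (x : V d N) : n1 (-x) = n1 x := by
  unfold n1
  refine sum_congr rfl fun i _ => ?_
  have := ZMod.natAbs_valMinAbs_neg (x i)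
  rw [Pi.neg_apply]
  exact_mod_cast this

omit [NeZero N] in
theorem n1_nonneg (x : V d N) : 0 ≤ n1 x := sum_nonneg fun _ _ => by positivity

omit [NeZero N] in
theorem FF_diff (f : ZMod N → ℝ) (R : ℝ) (hR : 0 < R) (hpos : ∀ i, 0 < f i)
    (hlip : ∀ i j, f (i + j) ≤ Real.exp ((j.valMinAbs.natAbs : ℝ) / R) * f i) (x y : V d N) :
    |FF f x - FF f (x - y)| ≤ (n1 y / R) * Real.exp (n1 y / R) * FF f x := by
  have hF : 0 < FF f x := prod_pos fun i _ => hpos _
  have h1 : FF f (x - y) ≤ Real.exp (n1 y / R) * FF f x := by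
    have := FF_lip f R hpos hlip x (-y)
    rwa [← sub_eq_add_neg, n1_neg] at this
  have h2 : FF f x ≤ Real.exp (n1 y / R) * FF f (x - y) := by
    have := FF_lip f R hpos hlip (x - y) y
    rwa [sub_add_cancel] at this
  set T := n1 y / R with hT
  have hT0 : 0 ≤ T := div_nonneg (n1_nonneg y) hR.le
  have h3 := Real.add_one_le_exp (-T)
  have h4 : Real.exp (-T) * Real.exp T = 1 := by rw [← Real.exp_add]; simp
  have h5 : Real.exp T - 1 ≤ T * Real.exp T := by nlinarith [Real.exp_pos T]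
  have h6 : 1 ≤ Real.exp T := Real.one_le_exp hT0
  have h7 : Real.exp (-T) * FF f x ≤ FF f (x - y) := by
    have := mul_le_mul_of_nonneg_left h2 (Real.exp_pos (-T)).le
    rwa [← mul_assoc, h4, one_mul] at this
  rw [abs_le]
  constructor
  · nlinarith
  · nlinarith

end dim

theorem pow2_exp {τ : ℝ} (hτ : 0 ≤ τ) : τ ^ 2 ≤ 32 * Real.exp (τ / 4) := by
  have := Real.pow_div_factorial_le_exp (τ / 4) (by positivity) 2
  norm_num [Nat.factorial] at this
  nlinarith

theorem pow4_exp {τ : ℝ} (hτ : 0 ≤ τ) : τ ^ 4 ≤ 6144 * Real.exp (τ / 4) := by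
  have := Real.pow_div_factorial_le_exp (τ / 4) (by positivity) 4
  norm_num [Nat.factorial] at this
  have e : (τ / 4) ^ 4 = τ ^ 4 / 256 := by ring
  rw [e] at this
  linarith

end Aux

open Aux in
/-- existence of the noise kernels -/
theorem ker_exists (d : ℕ) : ∃ C1 c1 : ℝ, 0 < C1 ∧ 0 < c1 ∧ ∀ (N : ℕ) [NeZero N] (r R : ℝ),
    Odd N → 3 ≤ N → 1 ≤ r → 1 ≤ R → r / R ≤ c1 → ∃ q : GG d N → ℝ, Ker r R C1 q := by
  obtain ⟨C', hC', hf⟩ := f_exists
  obtain ⟨C2, hC2, htay⟩ := KD.I.N4.taylorV d C' hC'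
  have p16 : (0 : ℝ) < 16 ^ d := by positivity
  refine ⟨16 ^ d * 16 ^ d + 32 * 16 ^ d + 6144 * C2 ^ 2 * 16 ^ d, 1 / 64, by positivity, by norm_num, ?_⟩
  intro N _ r R hodd hN hr hR hrR
  have hr0 : 0 < r := by linarith
  have hR0 : 0 < R := by linarith
  obtain ⟨f, fpos, fmass, feven, flip, fmom, ftay⟩ := hf N R hodd hN hR
  obtain ⟨g, gpos, gmass, geven, glip, gmom, gtay⟩ := hf N r hodd hN hr
  set q : GG d N → ℝ := fun w => FF f w.1 * FF g w.2 with hq
  have Fpos : ∀ x : V d N, 0 < FF f x := fun x => prod_pos fun i _ => fpos _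
  have Gpos : ∀ x : V d N, 0 < FF g x := fun x => prod_pos fun i _ => gpos _
  have Fsum : ∑ x : V d N, FF f x = 1 := by rw [sum_FF, fmass, one_pow]
  have Gsum : ∑ x : V d N, FF g x = 1 := by rw [sum_FF, gmass, one_pow]
  have Gmom : ∑ y : V d N, FF g y * Real.exp (n1 y / r / 2) ≤ 16 ^ d := by
    rw [sum_congr rfl fun y _ => FF_exp g r y, sum_FF]
    exact pow_le_pow_left₀ (sum_nonneg fun i _ => mul_nonneg (gpos i).le (Real.exp_pos _).le) gmom d
  have Fmom : ∑ y : V d N, FF f y * Real.exp (n1 y / R / 2) ≤ 16 ^ d := by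
    rw [sum_congr rfl fun y _ => FF_exp f R y, sum_FF]
    exact pow_le_pow_left₀ (sum_nonneg fun i _ => mul_nonneg (fpos i).le (Real.exp_pos _).le) fmom d
  have hsum : ∀ h : V d N → ℝ, ∑ w : GG d N, FF f w.1 * h w.2 = ∑ y, h y := by
    intro h
    rw [Fintype.sum_prod_type]
    simp only
    rw [← sum_mul_sum, Fsum, one_mul]
  set ρ := r / R with hρ
  have hρ0 : 0 < ρ := by positivity
  have hT : ∀ y : V d N, n1 y / R = ρ * (n1 y / r) := by
    intro y
    rw [hρ]; field_simp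
  refine ⟨q, ?_⟩
  refine
    { pos := fun z => mul_pos (Fpos _) (Gpos _)
      mass := ?_
      symx := ?_
      symv := ?_
      lip := ?_
      mom := ?_
      c1 := ?_
      c2 := ?_ }
  · rw [hq, hsum]; exact Gsum
  · intro x y
    simp only [hq, FF, Pi.neg_apply, feven]
  · intro x y
    simp only [hq, FF, Pi.neg_apply, geven]
  · intro z w
    have h1 := FF_lip f R fpos flip z.1 w.1
    have h2 := FF_lip g r gpos glip z.2 w.2
    calc q (z + w) = FF f (z.1 + w.1) * FF g (z.2 + w.2) := rfl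
      _ ≤ (Real.exp (n1 w.1 / R) * FF f z.1) * (Real.exp (n1 w.2 / r) * FF g z.2) :=
          mul_le_mul h1 h2 (Gpos _).le (mul_nonneg (Real.exp_pos _).le (Fpos _).le)
      _ = _ := by unfold nrm; rw [Real.exp_add]; ring
  · calc ∑ w, q w * Real.exp (nrm r R w / 2)
        = ∑ w : GG d N, (FF f w.1 * Real.exp (n1 w.1 / R / 2)) * (FF g w.2 * Real.exp (n1 w.2 / r / 2)) := by
          refine sum_congr rfl fun w _ => ?_
          have : nrm r R w / 2 = n1 w.1 / R / 2 + n1 w.2 / r / 2 := by unfold nrm; ring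
          rw [this, Real.exp_add, hq]; ring
      _ = (∑ x : V d N, FF f x * Real.exp (n1 x / R / 2)) * ∑ y : V d N, FF g y * Real.exp (n1 y / r / 2) := by
          rw [Fintype.sum_prod_type]
          simp only
          rw [← sum_mul_sum]
      _ ≤ 16 ^ d * 16 ^ d :=
          mul_le_mul Fmom Gmom (sum_nonneg fun y _ => mul_nonneg (Gpos y).le (Real.exp_pos _).le) p16.le
      _ ≤ _ := by nlinarith [sq_nonneg C2, mul_nonneg (sq_nonneg C2) p16.le]
  · -- first commutator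
    have key : ∀ w : GG d N, com1 q w ^ 2 / q w ≤ FF f w.1 * (32 * ρ ^ 2 * (FF g w.2 * Real.exp (n1 w.2 / r / 2))) := by
      intro w
      set y := w.2 with hy
      set τ := n1 y / r with hτ
      have hτ0 : 0 ≤ τ := div_nonneg (n1_nonneg y) hr0.le
      have hF := Fpos w.1
      have hG := Gpos y
      have h1 := FF_diff f R hR0 fpos flip w.1 y
      have hcom : com1 q w = (FF f w.1 - FF f (w.1 - y)) * FF g y := by
        simp only [com1, hq, Am, one_smul]
        ring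
      rw [hT y, ← hτ] at h1
      have h2 : com1 q w ^ 2 ≤ (ρ * τ * Real.exp (ρ * τ) * FF f w.1) ^ 2 * FF g y ^ 2 := by
        rw [hcom, mul_pow]
        refine mul_le_mul_of_nonneg_right ?_ (sq_nonneg _)
        exact sq_le_sq' (by linarith [(abs_le.1 h1).1]) (abs_le.1 h1).2
      have h3 : com1 q w ^ 2 / q w ≤ (ρ * τ * Real.exp (ρ * τ)) ^ 2 * FF f w.1 * FF g y := by
        rw [div_le_iff₀ (mul_pos hF hG)]
        calc _ ≤ _ := h2
          _ = _ := by ring
      refine h3.trans ?_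
      have h4 : (Real.exp (ρ * τ)) ^ 2 ≤ Real.exp (τ / 4) := by
        rw [← Real.exp_nat_mul]
        refine Real.exp_le_exp.2 ?_
        push_cast
        nlinarith
      have h5 := pow2_exp hτ0
      have h6 : Real.exp (τ / 4) * Real.exp (τ / 4) = Real.exp (τ / 2) := by
        rw [← Real.exp_add]; congr 1; ring
      have h7 : (ρ * τ * Real.exp (ρ * τ)) ^ 2 ≤ 32 * ρ ^ 2 * Real.exp (τ / 2) := by
        calc (ρ * τ * Real.exp (ρ * τ)) ^ 2 = ρ ^ 2 * (τ ^ 2 * (Real.exp (ρ * τ)) ^ 2) := by ring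
          _ ≤ ρ ^ 2 * ((32 * Real.exp (τ / 4)) * Real.exp (τ / 4)) := by
              refine mul_le_mul_of_nonneg_left ?_ (sq_nonneg _)
              exact mul_le_mul h5 h4 (sq_nonneg _) (by positivity)
          _ = 32 * ρ ^ 2 * (Real.exp (τ / 4) * Real.exp (τ / 4)) := by ring
          _ = _ := by rw [h6]
      calc (ρ * τ * Real.exp (ρ * τ)) ^ 2 * FF f w.1 * FF g y
          ≤ (32 * ρ ^ 2 * Real.exp (τ / 2)) * FF f w.1 * FF g y := by gcongr
        _ = _ := by ring
    calc ∑ w, com1 q w ^ 2 / q w ≤ ∑ w : GG d N, FF f w.1 * (32 * ρ ^ 2 * (FF g w.2 * Real.exp (n1 w.2 / r / 2))) :=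
          sum_le_sum fun w _ => key w
      _ = 32 * ρ ^ 2 * ∑ y : V d N, FF g y * Real.exp (n1 y / r / 2) := by
          rw [hsum (fun y => 32 * ρ ^ 2 * (FF g y * Real.exp (n1 y / r / 2))), mul_sum]
      _ ≤ 32 * ρ ^ 2 * 16 ^ d := mul_le_mul_of_nonneg_left Gmom (by positivity)
      _ ≤ _ := by
          have : 0 ≤ (16 ^ d * 16 ^ d + 6144 * C2 ^ 2 * 16 ^ d) * ρ ^ 2 := by positivity
          nlinarith
  · -- second commutator
    have key : ∀ w : GG d N, (com1 q w - lin1 q w) ^ 2 / q w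
        ≤ FF f w.1 * (6144 * C2 ^ 2 * ρ ^ 4 * (FF g w.2 * Real.exp (n1 w.2 / r / 2))) := by
      intro w
      set y := w.2 with hy
      set τ := n1 y / r with hτ
      have hτ0 : 0 ≤ τ := div_nonneg (n1_nonneg y) hr0.le
      have hF := Fpos w.1
      have hG := Gpos y
      have h1 := htay N R f hodd hR fpos flip ftay w.1 y
      have hcom : com1 q w - lin1 q w = ((∏ i, f (w.1 i)) - (∏ i, f (w.1 i - y i))
        - (1 / 2) * ∑ i, ((y i).valMinAbs : ℝ) *
          ((∏ l, f (w.1 l + (ee i : V d N) l)) - ∏ l, f (w.1 l - (ee i : V d N) l))) * FF g y := by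
        simp only [com1, lin1, hq, Am, one_smul, xs, FF, Prod.fst_add, Prod.snd_add, Prod.fst_sub,
          Prod.snd_sub, Pi.zero_apply, add_zero, sub_zero, Pi.add_apply, Pi.sub_apply, ← hy]
        rw [sub_mul, sub_mul, mul_assoc (1 / 2 : ℝ), sum_mul]
        congr 1
        congr 1
        refine sum_congr rfl fun i _ => ?_
        ring
      have e4 : 4 * n1 y / R = 4 * (ρ * τ) := by
        rw [mul_div_assoc, hT y]
      rw [e4, hT y, ← hτ] at h1
      have h2 : (com1 q w - lin1 q w) ^ 2 ≤ (C2 * (ρ * τ) ^ 2 * Real.exp (4 * (ρ * τ)) * FF f w.1) ^ 2 * FF g y ^ 2 := by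
        rw [hcom, mul_pow]
        refine mul_le_mul_of_nonneg_right ?_ (sq_nonneg _)
        exact sq_le_sq' (by have := (abs_le.1 h1).1; unfold FF; linarith) (abs_le.1 h1).2
      have h3 : (com1 q w - lin1 q w) ^ 2 / q w ≤ (C2 * (ρ * τ) ^ 2 * Real.exp (4 * (ρ * τ))) ^ 2 * FF f w.1 * FF g y := by
        rw [div_le_iff₀ (mul_pos hF hG)]
        calc _ ≤ _ := h2
          _ = _ := by ring
      refine h3.trans ?_
      have h4 : (Real.exp (4 * (ρ * τ))) ^ 2 ≤ Real.exp (τ / 4) := by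
        rw [← Real.exp_nat_mul]
        refine Real.exp_le_exp.2 ?_
        push_cast
        nlinarith
      have h5 := pow4_exp hτ0
      have h6 : Real.exp (τ / 4) * Real.exp (τ / 4) = Real.exp (τ / 2) := by
        rw [← Real.exp_add]; congr 1; ring
      have h7 : (C2 * (ρ * τ) ^ 2 * Real.exp (4 * (ρ * τ))) ^ 2 ≤ 6144 * C2 ^ 2 * ρ ^ 4 * Real.exp (τ / 2) := by
        calc (C2 * (ρ * τ) ^ 2 * Real.exp (4 * (ρ * τ))) ^ 2
            = C2 ^ 2 * ρ ^ 4 * (τ ^ 4 * (Real.exp (4 * (ρ * τ))) ^ 2) := by ring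
          _ ≤ C2 ^ 2 * ρ ^ 4 * ((6144 * Real.exp (τ / 4)) * Real.exp (τ / 4)) := by
              refine mul_le_mul_of_nonneg_left ?_ (by positivity)
              exact mul_le_mul h5 h4 (sq_nonneg _) (by positivity)
          _ = 6144 * C2 ^ 2 * ρ ^ 4 * (Real.exp (τ / 4) * Real.exp (τ / 4)) := by ring
          _ = _ := by rw [h6]
      calc (C2 * (ρ * τ) ^ 2 * Real.exp (4 * (ρ * τ))) ^ 2 * FF f w.1 * FF g y
          ≤ (6144 * C2 ^ 2 * ρ ^ 4 * Real.exp (τ / 2)) * FF f w.1 * FF g y := by gcongr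
        _ = _ := by ring
    calc ∑ w, (com1 q w - lin1 q w) ^ 2 / q w
        ≤ ∑ w : GG d N, FF f w.1 * (6144 * C2 ^ 2 * ρ ^ 4 * (FF g w.2 * Real.exp (n1 w.2 / r / 2))) :=
          sum_le_sum fun w _ => key w
      _ = 6144 * C2 ^ 2 * ρ ^ 4 * ∑ y : V d N, FF g y * Real.exp (n1 y / r / 2) := by
          rw [hsum (fun y => 6144 * C2 ^ 2 * ρ ^ 4 * (FF g y * Real.exp (n1 y / r / 2))), mul_sum]
      _ ≤ 6144 * C2 ^ 2 * ρ ^ 4 * 16 ^ d := mul_le_mul_of_nonneg_left Gmom (by positivity)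
      _ ≤ _ := by
          have : 0 ≤ (16 ^ d * 16 ^ d + 32 * 16 ^ d) * ρ ^ 4 := by positivity
          nlinarith

end KD.I.N5
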